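import Pool.Agent.Helper6.CS.Goals1

/-!
# Packet CS-PH (MP_81e84b_lc): the pigeonhole principle
-/

namespace Pool.Agent.Helper36.CS

open Pool.Agent.Helper6.CS

set_option synthInstance.maxSize 1000000000

theorem t_PH : G_PH := by
  classical
  intro M _ g _ N hg
  have key : ∀ N : M, ∀ e : M, (∀ i, i ≤ N → ev e i < N) →
      ∃ i j : M, i < j ∧ j ≤ N ∧ ev e i = ev e j := by
    refine ind inferInstance ?_ ?_
    · intro e he
      exact absurd (he 0 le_rfl) (not_lt.2 (World.zero_le' _))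
    · intro N ih e he
      have lt_add : ∀ a : M, a < a + 1 := fun a => (World.lt_succ _ _).2 le_rfl
      by_cases h2 : ∃ i j : M, i < j ∧ j ≤ N + 1 ∧ ev e i = N ∧ ev e j = N
      · obtain ⟨i, j, hij, hj, h3, h4⟩ := h2
        exact ⟨i, j, hij, hj, h3.trans h4.symm⟩
      obtain ⟨i₀, hi₀, hi₁⟩ : ∃ i₀ : M, i₀ ≤ N + 1 ∧ ∀ i, i ≤ N + 1 → i ≠ i₀ → ev e i < N := by
        by_cases h3 : ∃ i : M, i ≤ N + 1 ∧ ev e i = N
        · obtain ⟨i₀, hi₀, hi⟩ := h3
          refine ⟨i₀, hi₀, fun i hi1 hne => ?_⟩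
          refine lt_of_le_of_ne ((World.lt_succ _ _).1 (he i hi1)) fun h4 => h2 ?_
          rcases lt_or_gt_of_ne hne with h5 | h5
          · exact ⟨i, i₀, h5, hi₀, h4, hi⟩
          · exact ⟨i₀, i, h5, hi1, hi, h4⟩
        · refine ⟨N + 1, le_rfl, fun i hi1 _ => ?_⟩
          exact lt_of_le_of_ne ((World.lt_succ _ _).1 (he i hi1)) fun h4 => h3 ⟨i, hi1, h4⟩
      obtain ⟨e', he'⟩ := ev_exists (fun i : M => if i < i₀ then ev e i else ev e (i + 1)) (N + 1)
      have he1 : ∀ i, i ≤ N → ev e' i = if i < i₀ then ev e i else ev e (i + 1) :=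
        fun i hi => he' i ((World.lt_succ _ _).2 hi)
      obtain ⟨i, j, hij, hj, h3⟩ := ih e' fun i hi => by
        rw [he1 i hi]
        split_ifs with h4
        · exact hi₁ i (hi.trans (lt_add N).le) h4.ne
        · exact hi₁ (i + 1) (add_le_add_left hi 1) (lt_of_le_of_lt (not_lt.1 h4) (lt_add i)).ne'
      rw [he1 i (hij.le.trans hj), he1 j hj] at h3
      by_cases h4 : j < i₀
      · rw [if_pos (hij.trans h4), if_pos h4] at h3
        exact ⟨i, j, hij, hj.trans (lt_add N).le, h3⟩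
      · rw [if_neg h4] at h3
        by_cases h5 : i < i₀
        · rw [if_pos h5] at h3
          exact ⟨i, j + 1, hij.trans (lt_add j), add_le_add_left hj 1, h3⟩
        · rw [if_neg h5] at h3
          exact ⟨i + 1, j + 1, by gcongr, add_le_add_left hj 1, h3⟩
  obtain ⟨e, he⟩ := ev_exists g (N + 1)
  have he1 : ∀ i, i ≤ N → ev e i = g i := fun i hi => he i ((World.lt_succ _ _).2 hi)
  obtain ⟨i, j, hij, hj, h3⟩ := key N e fun i hi => by rw [he1 i hi]; exact hg i hi
  exact ⟨i, j, hij, hj, by rw [← he1 i (hij.le.trans hj), h3, he1 j hj]⟩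

end Pool.Agent.Helper36.CS
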